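import Mathlib

set_option autoImplicit false

namespace Pool.Agent.Results.MP_56f6b7_co.Cex

open Complex

/-- The complex `w`-th roots of unity. -/
def mu (w : ℕ) : Set ℂ := {z | ∃ k : ℕ, k < w ∧ z = exp (2 * Real.pi * I * k / w)}

/-- Butson Hadamard matrix `BH(w, v)`. -/
def IsBH (w : ℕ) {v : ℕ} (H : Matrix (Fin v) (Fin v) ℂ) : Prop :=
  (∀ i j, H i j ∈ mu w) ∧ H * H.conjTranspose = (v : ℂ) • (1 : Matrix _ _ ℂ)

/-- First row and first column are all ones. -/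
def Normalised {v : ℕ} (H : Matrix (Fin v) (Fin v) ℂ) : Prop :=
  ∀ i j : Fin v, i.1 = 0 ∨ j.1 = 0 → H i j = 1

/-- Row balanced. -/
def RowBal (w : ℕ) {v : ℕ} (H : Matrix (Fin v) (Fin v) ℂ) : Prop :=
  ∀ i : Fin v, i.1 ≠ 0 → ∀ h ∈ mu w, {j | H i j = h}.ncard = v / w

/-- Column balanced. -/
def ColBal (w : ℕ) {v : ℕ} (H : Matrix (Fin v) (Fin v) ℂ) : Prop :=
  ∀ j : Fin v, j.1 ≠ 0 → ∀ h ∈ mu w, {i | H i j = h}.ncard = v / w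

/-- Generalised Hadamard matrix `GH(w, v / w)` over the `w`-th roots of unity. -/
def IsGH (w : ℕ) {v : ℕ} (H : Matrix (Fin v) (Fin v) ℂ) : Prop :=
  (∀ i j, H i j ∈ mu w) ∧
    ∀ i k, i ≠ k → ∀ h ∈ mu w, {j | H i j * (H k j)⁻¹ = h}.ncard = v / w

def E : Fin 16 → Fin 16 → Fin 4 :=
  ![![0, 0, 0, 0, 0, 0, 0, 0, 0, 0, 0, 0, 0, 0, 0, 0],
    ![0, 0, 0, 0, 1, 1, 1, 1, 2, 2, 2, 2, 3, 3, 3, 3],
    ![0, 0, 2, 3, 3, 1, 2, 1, 3, 0, 2, 0, 3, 1, 1, 2],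
    ![0, 1, 3, 2, 1, 2, 3, 0, 3, 1, 1, 3, 2, 0, 2, 0],
    ![0, 3, 3, 1, 3, 2, 0, 2, 2, 3, 1, 1, 0, 0, 2, 1],
    ![0, 2, 3, 1, 0, 0, 3, 1, 2, 2, 3, 3, 1, 1, 0, 2],
    ![0, 1, 3, 2, 2, 1, 0, 3, 1, 0, 3, 2, 3, 2, 0, 1],
    ![0, 3, 2, 0, 1, 2, 1, 0, 0, 3, 3, 3, 1, 2, 2, 1],
    ![0, 2, 1, 2, 0, 2, 2, 0, 1, 3, 0, 1, 3, 1, 3, 3],
    ![0, 2, 1, 1, 3, 3, 0, 1, 0, 0, 2, 2, 2, 3, 1, 3],
    ![0, 3, 0, 0, 2, 3, 2, 3, 2, 1, 3, 1, 2, 1, 1, 0],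
    ![0, 2, 2, 1, 2, 0, 1, 3, 3, 1, 1, 0, 0, 2, 3, 3],
    ![0, 1, 0, 3, 3, 0, 2, 2, 1, 3, 1, 3, 1, 2, 2, 0],
    ![0, 3, 1, 3, 2, 1, 3, 2, 0, 1, 0, 2, 1, 0, 3, 2],
    ![0, 0, 1, 2, 1, 3, 3, 3, 1, 2, 2, 0, 0, 3, 1, 2],
    ![0, 1, 2, 3, 0, 3, 1, 2, 3, 2, 0, 1, 2, 3, 0, 1]]

noncomputable def g (x : Fin 4) : ℂ := I ^ x.1

lemma mem_mu (z : ℂ) : z ∈ mu 4 ↔ ∃ x, z = g x := by
  have : ∀ k : ℕ, exp (2 * Real.pi * I * k / (4 : ℕ)) = I ^ k := by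
    intro k
    rw [← exp_pi_div_two_mul_I, ← exp_nat_mul, exp_pi_div_two_mul_I]
    congr 1
    push_cast
    ring
  constructor
  · rintro ⟨k, hk, rfl⟩
    exact ⟨⟨k, hk⟩, this k⟩
  · rintro ⟨x, rfl⟩
    exact ⟨x.1, x.2, (this _).symm⟩

lemma g_val : g 0 = 1 ∧ g 1 = I ∧ g 2 = -1 ∧ g 3 = -I := by
  simp [g]

lemma g_inj : Function.Injective g := by
  obtain ⟨h0, h1, h2, h3⟩ := g_val
  intro a b
  fin_cases a <;> fin_cases b <;> simp [h0, h1, h2, h3, Complex.ext_iff] <;> norm_num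

lemma g_sub (a b : Fin 4) : g a * (g b)⁻¹ = g (a - b) ∧ g a * star (g b) = g (a - b) := by
  have e2 : ((-2 : Fin 4) : ℕ) = 2 := rfl
  have e3 : ((-3 : Fin 4) : ℕ) = 1 := rfl
  fin_cases a <;> fin_cases b <;> simp [g, pow_succ, e2, e3]

lemma cnt (f : Fin 16 → Fin 4) (x : Fin 4) :
    {j | g (f j) = g x}.ncard = (Finset.univ.filter fun j => f j = x).card := by
  rw [← Set.ncard_coe_finset]
  congr 1
  ext j
  simp [g_inj.eq_iff]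

def c (i k : Fin 16) (x : Fin 4) : ℕ := (Finset.univ.filter fun j => E i j - E k j = x).card

lemma d1 : ∀ i k, i ≠ k → c i k 0 = c i k 2 ∧ c i k 1 = c i k 3 := by decide +kernel
lemma d2 : ∀ i j : Fin 16, i.1 = 0 ∨ j.1 = 0 → E i j = 0 := by decide +kernel
lemma d3 : ∀ i : Fin 16, i.1 ≠ 0 → ∀ x,
    (Finset.univ.filter fun j => E i j = x).card = 16 / 4 ∧
    (Finset.univ.filter fun j => E j i = x).card = 16 / 4 := by decide +kernel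
lemma d4 : c 1 2 0 ≠ 16 / 4 := by decide +kernel

/-- A normalised, row and column balanced `BH(4, 16)` that is not a `GH(4, 4)`. -/
theorem result : ∃ (w v : ℕ) (H : Matrix (Fin v) (Fin v) ℂ), 2 ≤ w ∧ 1 ≤ v ∧ w ∣ v ∧
    IsBH w H ∧ Normalised H ∧ RowBal w H ∧ ColBal w H ∧ ¬ IsGH w H := by
  obtain ⟨h0, h1, h2, h3⟩ := g_val
  refine ⟨4, 16, fun i j => g (E i j), by norm_num, by norm_num, by norm_num,
    ⟨fun i j => (mem_mu _).2 ⟨_, rfl⟩, ?_⟩, fun i j h => by simp only [d2 i j h, h0],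
    fun i hi h hh => ?_, fun i hi h hh => ?_, fun h => d4 ?_⟩
  · ext i k
    simp only [Matrix.mul_apply, Matrix.conjTranspose_apply, (g_sub _ _).2]
    by_cases hik : i = k
    · subst hik
      simp [h0]
    · rw [← Finset.sum_fiberwise' Finset.univ (fun j => E i j - E k j) g, Fin.sum_univ_four]
      simp only [Finset.sum_const, nsmul_eq_mul]
      have := d1 i k hik
      unfold c at this
      rw [this.1, this.2, h0, h1, h2, h3]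
      simp [hik]
  · obtain ⟨x, rfl⟩ := (mem_mu _).1 hh
    rw [cnt]; exact (d3 i hi x).1
  · obtain ⟨x, rfl⟩ := (mem_mu _).1 hh
    rw [cnt (fun j => E j i)]; exact (d3 i hi x).2
  · have := h.2 1 2 (by decide) (g 0) ((mem_mu _).2 ⟨_, rfl⟩)
    simp only [(g_sub _ _).1] at this
    rwa [cnt] at this

end Pool.Agent.Results.MP_56f6b7_co.Cex
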